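import Pool.Agent.Helper42.LK.Defs

set_option autoImplicit false

/-! # Module KMK: Minkowski's theorem for prescribed sizes at all places -/

open Filter Topology NumberField Module nonZeroDivisors

namespace Pool.Agent.Helper42.LK

theorem kmk_int {K : Type} [Field K] [NumberField K] (S : Finset (FinitePlace K))
    (b : FinitePlace K → 𝓞 K) (hb : ∀ v ∈ S, b v ≠ 0) :
    ∃ J : Ideal (𝓞 K), J ≠ ⊥ ∧
      (Ideal.absNorm J : ℝ) = ∏ v ∈ S, (v (b v : K))⁻¹ ∧
      ∀ x ∈ J, ∀ v ∈ S, v (x : K) ≤ v (b v : K) := by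
  classical
  let m : FinitePlace K → ℕ := fun v =>
    multiplicity v.maximalIdeal.asIdeal (Ideal.span {b v})
  refine ⟨∏ v ∈ S, v.maximalIdeal.asIdeal ^ m v, ?_, ?_, ?_⟩
  · rw [← Ideal.zero_eq_bot, Finset.prod_ne_zero_iff]
    intro v _
    exact pow_ne_zero _ v.maximalIdeal.ne_bot
  · rw [map_prod, Nat.cast_prod]
    refine Finset.prod_congr rfl ?_
    intro v hv
    have h := FinitePlace.apply_mul_absNorm_pow_eq_one v (hb v hv)
    rw [map_pow, Nat.cast_pow]
    exact eq_inv_of_mul_eq_one_right h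
  · intro x hx v hv
    by_cases hx0 : x = 0
    · rw [hx0]
      simp
    have h1 := FinitePlace.apply_mul_absNorm_pow_eq_one v (hb v hv)
    have h2 := FinitePlace.apply_mul_absNorm_pow_eq_one v hx0
    have h3a : v.maximalIdeal.asIdeal ^ m v ∣ ∏ v ∈ S, v.maximalIdeal.asIdeal ^ m v :=
      Finset.dvd_prod_of_mem (fun v : FinitePlace K => v.maximalIdeal.asIdeal ^ m v) hv
    have h3b : (∏ v ∈ S, v.maximalIdeal.asIdeal ^ m v) ∣ Ideal.span {x} :=
      Ideal.dvd_span_singleton.2 hx
    have h3 : v.maximalIdeal.asIdeal ^ m v ∣ Ideal.span {x} := dvd_trans h3a h3b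
    have hne : (Ideal.span {x} : Ideal (𝓞 K)) ≠ 0 := by
      rw [Ideal.zero_eq_bot]
      exact mt Submodule.span_singleton_eq_bot.mp hx0
    have hfin : FiniteMultiplicity v.maximalIdeal.asIdeal (Ideal.span {x}) :=
      FiniteMultiplicity.of_prime_left v.maximalIdeal.prime hne
    have h4 : m v ≤ multiplicity v.maximalIdeal.asIdeal (Ideal.span {x}) :=
      hfin.pow_dvd_iff_le_multiplicity.1 h3
    have hq : (1 : ℝ) < (Ideal.absNorm v.maximalIdeal.asIdeal : ℝ) := by
      exact_mod_cast NumberField.HeightOneSpectrum.one_lt_absNorm v.maximalIdeal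
    have h5 : (Ideal.absNorm v.maximalIdeal.asIdeal : ℝ) ^ m v ≤
        (Ideal.absNorm v.maximalIdeal.asIdeal : ℝ) ^
          multiplicity v.maximalIdeal.asIdeal (Ideal.span {x}) :=
      pow_le_pow_right₀ hq.le h4
    rw [eq_inv_of_mul_eq_one_left h1, eq_inv_of_mul_eq_one_left h2]
    exact inv_anti₀ (pow_pos (by linarith) _) h5

theorem kmk_den {K : Type} [Field K] [NumberField K] (a : FinitePlace K → K) (ha : ∀ v, a v ≠ 0)
    (hfin : {v : FinitePlace K | v (a v) ≠ 1}.Finite) :
    ∃ (D : 𝓞 K) (J : Ideal (𝓞 K)), D ≠ 0 ∧ J ≠ ⊥ ∧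
      Real.log (Ideal.absNorm J) = Real.log |(Algebra.norm ℚ (D : K) : ℝ)| -
        ∑ᶠ v : FinitePlace K, Real.log (v (a v)) ∧
      ∀ x ∈ J, ∀ v : FinitePlace K, v ((x : K) / (D : K)) ≤ v (a v) := by
  classical
  set S := hfin.toFinset with hS
  obtain ⟨⟨D, hD⟩, hDS⟩ := IsLocalization.exist_integer_multiples (𝓞 K)⁰ S a
  have hD0 : D ≠ 0 := nonZeroDivisors.ne_zero hD
  have hDK : (D : K) ≠ 0 := by
    exact_mod_cast hD0
  have hDfin : (fun w : FinitePlace K => w (D : K)).HasFiniteMulSupport :=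
    FinitePlace.hasFiniteMulSupport hDK
  set T := S ∪ hDfin.toFinset with hT
  -- integral representatives
  have hrep : ∀ v : FinitePlace K, ∃ c : 𝓞 K, c ≠ 0 ∧
      (c : K) = (D : K) * (if v ∈ S then a v else 1) := by
    intro v
    by_cases hv : v ∈ S
    · obtain ⟨c, hc⟩ := hDS v hv
      have hc' : (c : K) = (D : K) * a v := by
        rw [RingOfIntegers.coe_eq_algebraMap, hc]
        rw [Algebra.smul_def]
      refine ⟨c, ?_, by rw [if_pos hv]; exact hc'⟩
      intro h0
      rw [h0] at hc'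
      have : (D : K) * a v = 0 := by
        rw [← hc']
        simp
      exact (mul_ne_zero hDK (ha v)) this
    · exact ⟨D, hD0, by rw [if_neg hv, mul_one]⟩
  choose b hb0 hb using hrep
  obtain ⟨J, hJ, hN, hJmem⟩ := kmk_int T b (fun v _ => hb0 v)
  have hval : ∀ v : FinitePlace K, v (if v ∈ S then a v else 1) = v (a v) := by
    intro v
    by_cases hv : v ∈ S
    · rw [if_pos hv]
    · rw [if_neg hv, map_one]
      have : ¬ (v (a v) ≠ 1) := by
        intro hh
        exact hv (hfin.mem_toFinset.2 hh)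
      push Not at this
      exact this.symm
  have hbv : ∀ v : FinitePlace K, v (b v : K) = v (D : K) * v (a v) := by
    intro v
    rw [hb v, map_mul, hval v]
  refine ⟨D, J, hD0, hJ, ?_, ?_⟩
  · rw [hN, Real.log_prod (fun v _ => inv_ne_zero (by
      rw [hbv v]
      exact mul_ne_zero (FinitePlace.pos_iff.2 hDK).ne' (FinitePlace.pos_iff.2 (ha v)).ne'))]
    have h1 : ∀ v ∈ T, Real.log ((v (b v : K))⁻¹) = -Real.log (v (D : K)) - Real.log (v (a v)) := by
      intro v _
      rw [hbv v, Real.log_inv, Real.log_mul (FinitePlace.pos_iff.2 hDK).ne'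
        (FinitePlace.pos_iff.2 (ha v)).ne']
      ring
    rw [Finset.sum_congr rfl h1, Finset.sum_sub_distrib, Finset.sum_neg_distrib]
    have h2 : ∑ v ∈ T, Real.log (v (a v)) = ∑ᶠ v : FinitePlace K, Real.log (v (a v)) := by
      rw [finsum_eq_sum_of_support_subset]
      intro v hv
      rw [Function.mem_support] at hv
      rw [Finset.mem_coe, hT, Finset.mem_union]
      left
      rw [hS, hfin.mem_toFinset]
      intro hh
      rw [hh, Real.log_one] at hv
      exact hv rfl
    have h3 : ∑ v ∈ T, Real.log (v (D : K)) = -Real.log |(Algebra.norm ℚ (D : K) : ℝ)| := by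
      rw [← Real.log_prod (fun v _ => (FinitePlace.pos_iff.2 hDK).ne')]
      have h4 : ∏ v ∈ T, v (D : K) = ∏ᶠ v : FinitePlace K, v (D : K) := by
        rw [finprod_eq_prod_of_mulSupport_subset]
        intro v hv
        rw [Finset.mem_coe, hT, Finset.mem_union]
        right
        exact hDfin.mem_toFinset.2 hv
      rw [h4, FinitePlace.prod_eq_inv_abs_norm hDK, Rat.cast_inv, Rat.cast_abs, Real.log_inv]
    rw [h2, h3]
    ring
  · intro x hx v
    rw [map_div₀, div_le_iff₀ (FinitePlace.pos_iff.2 hDK), mul_comm, ← hbv v]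
    by_cases hv : v ∈ T
    · exact hJmem x hx v hv
    · have h1 : v (D : K) = 1 := by
        by_contra hh
        exact hv (Finset.mem_union_right _ (hDfin.mem_toFinset.2 hh))
      have h2 : v (a v) = 1 := by
        by_contra hh
        exact hv (Finset.mem_union_left _ (hfin.mem_toFinset.2 hh))
      rw [hbv v, h1, h2, one_mul, ← FinitePlace.norm_embedding_eq]
      exact FinitePlace.norm_le_one K v.maximalIdeal x

theorem st_KMK : ST_KMK := by
  classical
  intro K _ _
  set V : ℝ := (MeasureTheory.volume (ZSpan.fundamentalDomain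
    (mixedEmbedding.latticeBasis K))).toReal with hV
  set d : ℕ := Module.finrank ℚ K with hd
  have hdpos : 0 < d := Module.finrank_pos
  set F : ℝ := (mixedEmbedding.convexBodyLTFactor K : ℝ) with hF
  have hVtop : MeasureTheory.volume (ZSpan.fundamentalDomain
      (mixedEmbedding.latticeBasis K)) ≠ ⊤ :=
    (ZSpan.fundamentalDomain_isBounded _).measure_lt_top.ne
  have hVpos : 0 < V := ENNReal.toReal_pos (ZSpan.measure_fundamentalDomain_ne_zero _) hVtop
  have hFpos : 0 < F := by
    have := mixedEmbedding.one_le_convexBodyLTFactor K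
    have h1 : (1 : ℝ) ≤ F := by exact_mod_cast this
    linarith
  refine ⟨Real.log (2 * V * 2 ^ d / F), ?_⟩
  intro a R ha hfin hR
  obtain ⟨D, J, hD0, hJ, hN, hJmem⟩ := kmk_den a ha hfin
  have hDK : (D : K) ≠ 0 := by exact_mod_cast hD0
  have hJN : 0 < (Ideal.absNorm J : ℝ) := by
    have : Ideal.absNorm J ≠ 0 := by
      rw [Ne, Ideal.absNorm_eq_zero_iff]
      exact hJ
    exact_mod_cast Nat.pos_of_ne_zero this
  have hnorm : 0 < |(Algebra.norm ℚ (D : K) : ℝ)| := by
    rw [abs_pos]
    exact_mod_cast (Algebra.norm_ne_zero_iff.2 hDK)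
  set PR : ℝ := ∏ w : InfinitePlace K, R w ^ w.mult with hPR
  have hPRpos : 0 < PR := Finset.prod_pos (fun w _ => pow_pos (hR w) _)
  set L : ℝ := Real.log (2 * V * 2 ^ d / F) + Real.log (Ideal.absNorm J) + Real.log PR -
    Real.log |(Algebra.norm ℚ (D : K) : ℝ)| with hL
  set l : ℝ := Real.exp (L / d) with hl
  have hlpos : 0 < l := Real.exp_pos _
  have hld : l ^ d = (2 * V * 2 ^ d / F) * (Ideal.absNorm J) * PR /
      |(Algebra.norm ℚ (D : K) : ℝ)| := by
    rw [hl, ← Real.exp_nat_mul, mul_div_cancel₀ _ (by positivity), hL, Real.exp_sub, Real.exp_add,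
      Real.exp_add, Real.exp_log (by positivity), Real.exp_log hJN, Real.exp_log hPRpos,
      Real.exp_log hnorm]
  -- Minkowski
  let f : InfinitePlace K → NNReal := fun w => Real.toNNReal (l * w (D : K) / R w)
  have hwD : ∀ w : InfinitePlace K, 0 < w (D : K) := fun w => InfinitePlace.pos_iff.2 hDK
  have hf : ∀ w, (f w : ℝ) = l * w (D : K) / R w := fun w =>
    Real.coe_toNNReal _ (by have := hwD w; have := hR w; positivity)
  let I : (FractionalIdeal (𝓞 K)⁰ K)ˣ :=
    Units.mk0 (J : FractionalIdeal (𝓞 K)⁰ K) (FractionalIdeal.coeIdeal_ne_zero.2 hJ)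
  have hvol : mixedEmbedding.minkowskiBound K I <
      MeasureTheory.volume (mixedEmbedding.convexBodyLT K f) := by
    rw [mixedEmbedding.convexBodyLT_volume, mixedEmbedding.minkowskiBound,
      mixedEmbedding.volume_fundamentalDomain_fractionalIdealLatticeBasis]
    have hfr : Module.finrank ℝ (mixedEmbedding.mixedSpace K) = d :=
      mixedEmbedding.finrank K
    rw [hfr]
    have e1 : (FractionalIdeal.absNorm (I : FractionalIdeal (𝓞 K)⁰ K) : ℝ) =
        (Ideal.absNorm J : ℝ) := by
      have : FractionalIdeal.absNorm (I : FractionalIdeal (𝓞 K)⁰ K) = (Ideal.absNorm J : ℚ) :=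
        FractionalIdeal.coeIdeal_absNorm J
      rw [this]
      norm_cast
    have e2 : MeasureTheory.volume (ZSpan.fundamentalDomain
        (mixedEmbedding.latticeBasis K)) = ENNReal.ofReal V := (ENNReal.ofReal_toReal hVtop).symm
    rw [e1, e2]
    have e3 : ENNReal.ofReal (Ideal.absNorm J : ℝ) * ENNReal.ofReal V * 2 ^ d =
        ENNReal.ofReal ((Ideal.absNorm J : ℝ) * V * 2 ^ d) := by
      rw [ENNReal.ofReal_mul (by positivity), ENNReal.ofReal_mul hJN.le,
        ENNReal.ofReal_pow (by norm_num)]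
      norm_num
    have e4 : ((mixedEmbedding.convexBodyLTFactor K : NNReal) : ENNReal) *
        ((∏ w, (f w) ^ (w.mult) : NNReal) : ENNReal) =
        ENNReal.ofReal (F * ∏ w : InfinitePlace K, (l * w (D : K) / R w) ^ w.mult) := by
      rw [ENNReal.ofReal_mul hFpos.le, hF, ENNReal.ofReal_coe_nnreal]
      congr 1
      rw [← ENNReal.ofReal_coe_nnreal]
      congr 1
      push_cast
      refine Finset.prod_congr rfl (fun w _ => ?_)
      rw [hf w]
    have e5 : ∏ w : InfinitePlace K, (l * w (D : K) / R w) ^ w.mult =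
        l ^ d * |(Algebra.norm ℚ (D : K) : ℝ)| / PR := by
      have h1 : ∀ w : InfinitePlace K, (l * w (D : K) / R w) ^ w.mult =
          l ^ w.mult * w (D : K) ^ w.mult / R w ^ w.mult := by
        intro w
        rw [div_pow, mul_pow]
      rw [Finset.prod_congr rfl (fun w _ => h1 w), Finset.prod_div_distrib,
        Finset.prod_mul_distrib, Finset.prod_pow_eq_pow_sum, InfinitePlace.sum_mult_eq,
        InfinitePlace.prod_eq_abs_norm]
      norm_cast
    have e6 : (Ideal.absNorm J : ℝ) * V * 2 ^ d <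
        F * ∏ w : InfinitePlace K, (l * w (D : K) / R w) ^ w.mult := by
      rw [e5, hld]
      have : F * ((2 * V * 2 ^ d / F) * (Ideal.absNorm J) * PR /
          |(Algebra.norm ℚ (D : K) : ℝ)| * |(Algebra.norm ℚ (D : K) : ℝ)| / PR) =
          2 * ((Ideal.absNorm J : ℝ) * V * 2 ^ d) := by
        field_simp
      rw [this]
      have : 0 < (Ideal.absNorm J : ℝ) * V * 2 ^ d := by positivity
      linarith
    rw [e3]
    rw [e4]
    exact (ENNReal.ofReal_lt_ofReal_iff (by
      have : 0 < (Ideal.absNorm J : ℝ) * V * 2 ^ d := by positivity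
      linarith)).2 e6
  obtain ⟨z, hz, hz0, hzf⟩ := mixedEmbedding.exists_ne_zero_mem_ideal_lt K I hvol
  obtain ⟨x, hx, rfl⟩ := (FractionalIdeal.mem_coeIdeal (𝓞 K)⁰).1 hz
  refine ⟨algebraMap (𝓞 K) K x / (D : K), l, div_ne_zero hz0 hDK, hlpos, ?_, ?_, ?_⟩
  · intro v
    exact hJmem x hx v
  · intro w
    rw [map_div₀, div_le_iff₀ (hwD w)]
    have := hzf w
    rw [hf w] at this
    refine this.le.trans (le_of_eq ?_)
    ring
  · have h1 : (d : ℝ) * Real.log l = L := by
      rw [hl, Real.log_exp]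
      field_simp
    have h2 : Real.log PR = ∑ w : InfinitePlace K, (w.mult : ℝ) * Real.log (R w) := by
      rw [hPR, Real.log_prod (fun w _ => (pow_pos (hR w) _).ne')]
      exact Finset.sum_congr rfl (fun w _ => Real.log_pow _ _)
    rw [h1, hL, h2, hN]
    linarith

end Pool.Agent.Helper42.LK
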